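import Mathlib
import Pool.Agent.L7h58.TR.Core

set_option autoImplicit false

/-!
# Small triangles with prescribed angles congruent to their images: the answer to Q2 is no

Let `D` be the closed unit disk of the Euclidean plane and `T : D → D` the homeomorphism
`T(x) = |x| x`. For every `η > 0` there is `ε > 0` such that no triangle in `D` of diameter `< ε`
all of whose angles are at least `η` is congruent to its image under `T`. So for this single
homeomorphism `T` and for every triple of angles `α, β, γ > 0` with `α + β + γ = π` there are no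
arbitrarily small triangles with these angles which are congruent to their images.

The proof: `T` keeps the distance of `p` and `q` iff
`(1 - |p| |q|) |p - q|² = 3/4 ⟨p + q, p - q⟩² + 1/4 (|p| - |q|)⁴`. So the sides `v` of a small
triangle near `P` which is congruent to its image satisfy, up to a small relative error, the
equation `(1 - |P|²) |v|² = 3 ⟨P, v⟩²`. The eigenvalues `1 - |P|²` and `1 - 4 |P|²` of this
quadratic form are never both small, so it is not small on three vectors `a, b, a - b` which are not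
nearly parallel.
-/

namespace Pool.Agent.Results.MP_623bad_gt.FixedAngles

open scoped RealInnerProductSpace EuclideanGeometry
open Pool.Agent.L7h58.TR

/-- the Euclidean plane -/
abbrev Plane := EuclideanSpace ℝ (Fin 2)

/-- the closed unit disk -/
abbrev D := Metric.closedBall (0 : Plane) 1

/-- `p, q, r` are the vertices of a (nondegenerate) triangle with the interior angles `α, β, γ` at
`p, q, r` -/
def HasAngles (p q r : Plane) (α β γ : ℝ) : Prop :=
  ¬ Collinear ℝ {p, q, r} ∧ ∠ q p r = α ∧ ∠ p q r = β ∧ ∠ p r q = γ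

/-- the triangle `p, q, r` is congruent to its image under `T` -/
def CongruentToImage (T : D ≃ₜ D) (p q r : D) : Prop :=
  dist (T p) (T q) = dist p q ∧ dist (T p) (T r) = dist p r ∧ dist (T q) (T r) = dist q r

/-- `x ↦ |x| x` as a bijection of the disk -/
noncomputable def T0 : D ≃ D where
  toFun x := ⟨‖(x : Plane)‖ • (x : Plane), by
    have h : ‖(x : Plane)‖ ≤ 1 := mem_closedBall_zero_iff.1 x.2
    rw [mem_closedBall_zero_iff, norm_smul, norm_norm]
    nlinarith [norm_nonneg (x : Plane)]⟩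
  invFun x := ⟨(√‖(x : Plane)‖)⁻¹ • (x : Plane), by
    have h : ‖(x : Plane)‖ ≤ 1 := mem_closedBall_zero_iff.1 x.2
    rw [mem_closedBall_zero_iff, norm_smul, norm_inv, Real.norm_of_nonneg (Real.sqrt_nonneg _)]
    rcases (norm_nonneg (x : Plane)).eq_or_lt with h0 | h0
    · rw [← h0]; simp
    · have h1 : 0 < √‖(x : Plane)‖ := Real.sqrt_pos.2 h0
      rw [inv_mul_le_iff₀ h1, mul_one]
      exact Real.le_sqrt_of_sq_le (by nlinarith)⟩
  left_inv x := by
    apply Subtype.ext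
    simp only
    rcases eq_or_ne (x : Plane) 0 with h | h
    · simp [h]
    · have h0 : 0 < ‖(x : Plane)‖ := norm_pos_iff.2 h
      rw [norm_smul, norm_norm, Real.sqrt_mul_self h0.le, smul_smul, inv_mul_cancel₀ h0.ne',
        one_smul]
  right_inv x := by
    apply Subtype.ext
    simp only
    rcases eq_or_ne (x : Plane) 0 with h | h
    · simp [h]
    · have h0 : 0 < ‖(x : Plane)‖ := norm_pos_iff.2 h
      have h1 : 0 < √‖(x : Plane)‖ := Real.sqrt_pos.2 h0
      rw [norm_smul, norm_inv, Real.norm_of_nonneg h1.le, smul_smul]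
      have h2 : (√‖(x : Plane)‖)⁻¹ * ‖(x : Plane)‖ * (√‖(x : Plane)‖)⁻¹ = 1 := by
        have h3 : √‖(x : Plane)‖ * √‖(x : Plane)‖ = ‖(x : Plane)‖ := Real.mul_self_sqrt h0.le
        field_simp
        rw [sq, h3]
      rw [h2, one_smul]

theorem T0_cont : Continuous T0 := by
  apply Continuous.subtype_mk
  fun_prop

/-- the homeomorphism `x ↦ |x| x` of the disk -/
noncomputable def T : D ≃ₜ D := T0_cont.homeoOfEquivCompactToT2

theorem T_apply (x : D) : ((T x : D) : Plane) = ‖(x : Plane)‖ • (x : Plane) := rfl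

theorem sin_ge {η θ : ℝ} (h0 : 0 < η) (h2 : η ≤ θ) (h3 : θ ≤ Real.pi - η) :
    Real.sin η ≤ Real.sin θ := by
  have hpi := Real.pi_gt_three
  rcases le_total θ (Real.pi / 2) with h | h
  · exact Real.sin_le_sin_of_le_of_le_pi_div_two (by linarith) h h2
  · rw [← Real.sin_pi_sub θ]
    exact Real.sin_le_sin_of_le_of_le_pi_div_two (by linarith) (by linarith) (by linarith)

/-- **The answer to Q2 is no**, for one homeomorphism and all triples of angles. -/
theorem result : ∃ T : D ≃ₜ D, (∀ x : D, ((T x : D) : Plane) = ‖(x : Plane)‖ • (x : Plane)) ∧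
    ∀ η : ℝ, 0 < η → ∃ ε : ℝ, 0 < ε ∧ ∀ (p q r : D) (α β γ : ℝ),
      η ≤ α → η ≤ β → η ≤ γ → HasAngles p q r α β γ →
      dist p q < ε → dist p r < ε → dist q r < ε → ¬ CongruentToImage T p q r := by
  refine ⟨T, T_apply, fun η0 hη0 => ?_⟩
  set η := min η0 1 with hη
  have hη1 : 0 < η := lt_min hη0 one_pos
  have hη2 : η ≤ 1 := min_le_right _ _
  have hη3 : η ≤ η0 := min_le_left _ _
  have hpi := Real.pi_gt_three
  set s := Real.sin η with hs
  have hs0 : 0 < s := Real.sin_pos_of_pos_of_lt_pi hη1 (by linarith)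
  have hs1 : s ≤ 1 := Real.sin_le_one η
  have hs4 : 0 < s ^ 4 := by positivity
  have hs41 : s ^ 4 ≤ 1 := pow_le_one₀ hs0.le hs1
  refine ⟨s ^ 4 / 900, by positivity, ?_⟩
  rintro p q r α β γ hα hβ hγ ⟨hcol, rfl, rfl, rfl⟩ hpq hpr hqr ⟨c1, c2, c3⟩
  -- distinct points
  have hqp : (q : Plane) ≠ p := by
    rintro h
    exact hcol (by rw [h, Set.insert_eq_of_mem (Set.mem_insert _ _)]; exact collinear_pair ℝ _ _)
  have hrp : (r : Plane) ≠ p := by
    rintro h
    apply hcol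
    rw [h, Set.pair_comm, Set.insert_eq_of_mem (Set.mem_insert _ _)]
    exact collinear_pair ℝ _ _
  -- the angles
  have hsum := EuclideanGeometry.angle_add_angle_add_angle_eq_pi (p₁ := (q : Plane))
    (p₂ := (p : Plane)) (r : Plane) hqp.symm
  have hβ' : ∠ (p : Plane) q r = ∠ (r : Plane) q p := EuclideanGeometry.angle_comm _ _ _
  rw [hβ'] at hβ
  have s1 : s ≤ Real.sin (∠ (q : Plane) p r) := sin_ge hη1 (by linarith) (by linarith)
  have s2 : s ≤ Real.sin (∠ (p : Plane) r q) := sin_ge hη1 (by linarith) (by linarith)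
  have s3 : s ≤ Real.sin (∠ (r : Plane) q p) := sin_ge hη1 (by linarith) (by linarith)
  have law := EuclideanGeometry.law_sin (r : Plane) q p
  set a : Plane := q - p with ha
  set b : Plane := r - p with hb
  have hqa : dist (q : Plane) p = ‖a‖ := dist_eq_norm _ _
  have hrb : dist (p : Plane) r = ‖b‖ := by rw [dist_comm]; exact dist_eq_norm _ _
  rw [hqa, hrb] at law
  have na : 0 ≤ ‖a‖ := norm_nonneg _
  have nb : 0 ≤ ‖b‖ := norm_nonneg _
  have l1 : s * ‖a‖ ≤ ‖b‖ := by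
    have m1 := mul_le_mul_of_nonneg_right s3 na
    have m2 := mul_le_mul_of_nonneg_right (Real.sin_le_one (∠ (p : Plane) r q)) nb
    linarith
  have l2 : s * ‖b‖ ≤ ‖a‖ := by
    have m1 := mul_le_mul_of_nonneg_right s2 nb
    have m2 := mul_le_mul_of_nonneg_right (Real.sin_le_one (∠ (r : Plane) q p)) na
    linarith
  have gram : (Real.sin (∠ (q : Plane) p r)) ^ 2 * (‖a‖ ^ 2 * ‖b‖ ^ 2)
      = ‖a‖ ^ 2 * ‖b‖ ^ 2 - ⟪a, b⟫ ^ 2 := by
    have g1 := InnerProductGeometry.sin_angle_mul_norm_mul_norm a b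
    have g2 : 0 ≤ ⟪a, a⟫ * ⟪b, b⟫ - ⟪a, b⟫ * ⟪a, b⟫ := by
      have := real_inner_mul_inner_self_le a b
      linarith
    have g3 : (Real.sin (InnerProductGeometry.angle a b) * (‖a‖ * ‖b‖)) ^ 2
        = ⟪a, a⟫ * ⟪b, b⟫ - ⟪a, b⟫ * ⟪a, b⟫ := by
      rw [g1, Real.sq_sqrt g2]
    rw [real_inner_self_eq_norm_sq, real_inner_self_eq_norm_sq] at g3
    have g4 : ∠ (q : Plane) p r = InnerProductGeometry.angle a b := rfl
    rw [g4]
    linear_combination g3
  have ss : s ^ 2 ≤ (Real.sin (∠ (q : Plane) p r)) ^ 2 := pow_le_pow_left₀ hs0.le s1 2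
  have big : s ^ 2 * (‖a‖ ^ 2 * ‖b‖ ^ 2) ≤ ‖a‖ ^ 2 * ‖b‖ ^ 2 - ⟪a, b⟫ ^ 2 := by
    rw [← gram]
    exact mul_le_mul_of_nonneg_right ss (by positivity)
  have q1 : s ^ 2 * ‖a‖ ^ 2 ≤ ‖b‖ ^ 2 := by
    have := pow_le_pow_left₀ (by positivity) l1 2
    rwa [mul_pow] at this
  have q2 : s ^ 2 * ‖b‖ ^ 2 ≤ ‖a‖ ^ 2 := by
    have := pow_le_pow_left₀ (by positivity) l2 2
    rwa [mul_pow] at this
  have k1 : s ^ 4 * (‖a‖ ^ 2) ^ 2 ≤ ‖a‖ ^ 2 * ‖b‖ ^ 2 - ⟪a, b⟫ ^ 2 := by
    refine le_trans ?_ big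
    calc s ^ 4 * (‖a‖ ^ 2) ^ 2 = (s ^ 2 * ‖a‖ ^ 2) * (s ^ 2 * ‖a‖ ^ 2) := by ring
      _ ≤ (s ^ 2 * ‖a‖ ^ 2) * ‖b‖ ^ 2 := mul_le_mul_of_nonneg_left q1 (by positivity)
      _ = _ := by ring
  have k2 : s ^ 4 * (‖b‖ ^ 2) ^ 2 ≤ ‖a‖ ^ 2 * ‖b‖ ^ 2 - ⟪a, b⟫ ^ 2 := by
    refine le_trans ?_ big
    calc s ^ 4 * (‖b‖ ^ 2) ^ 2 = (s ^ 2 * ‖b‖ ^ 2) * (s ^ 2 * ‖b‖ ^ 2) := by ring
      _ ≤ (s ^ 2 * ‖b‖ ^ 2) * ‖a‖ ^ 2 := mul_le_mul_of_nonneg_left q2 (by positivity)
      _ = _ := by ring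
  -- the distances
  have d (x y : D) : dist (T x) (T y)
      = ‖‖(x : Plane)‖ • (x : Plane) - ‖(y : Plane)‖ • (y : Plane)‖ := by
    rw [Subtype.dist_eq, T_apply, T_apply, dist_eq_norm]
  have d' (x y : D) : dist x y = ‖(x : Plane) - (y : Plane)‖ := by
    rw [Subtype.dist_eq, dist_eq_norm]
  rw [d, d'] at c1 c2 c3
  rw [norm_sub_rev, norm_sub_rev (p : Plane)] at c1 c2
  rw [d', norm_sub_rev] at hpq hpr
  have hn (x : D) : ‖(x : Plane)‖ ≤ 1 := mem_closedBall_zero_iff.1 x.2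
  exact fat (κ := s ^ 4) (ε := s ^ 4 / 900) (hn p) (hn q) (hn r) hs4 (by linarith) (by linarith)
    hqp hrp hpq.le hpr.le k1 k2 c1 c2 c3

end Pool.Agent.Results.MP_623bad_gt.FixedAngles
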