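import Pool.Agent.L7h58.BP.Lrg
import Pool.Agent.L7h10.BP.GAU
import Pool.Agent.L7h10.BP.RED
import Pool.Agent.L7h10.BP.CRI
import Pool.Agent.L7h10.BP.LUC
import Pool.Agent.L7h29.BP.Fac
import Pool.Agent.L7h79.BP.Dls
import Pool.Agent.L7h79.BP.Prc
import Pool.Agent.L7h25.BP.Var
import Pool.Agent.L7h25.BP.Lsv

set_option autoImplicit false

/-!
# Bernoulli polynomials: a large irreducible factor for almost all even degrees
-/

namespace Pool.Agent.L7h58.Old.LargeFactorAlmostAll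

open Polynomial Pool.Agent.L7h58.BP

/-- There is a constant `C` such that for every `N ≥ 3` all but at most `C N / (log N)^2` of the even
positive integers `n ≤ N` have the following property: the Bernoulli polynomial `B_n(x)` has a factor
`h`, irreducible over `ℚ`, with `deg h ≥ n - N^(1/2) (log N)^6`. -/
theorem result : ∃ C : ℝ, 0 < C ∧ ∀ N : ℕ, 3 ≤ N →
    (Nat.card {n : ℕ // 1 ≤ n ∧ n ≤ N ∧ Even n ∧ ¬ ∃ h : ℚ[X], Irreducible h ∧
      h ∣ Polynomial.bernoulli n ∧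
      (n : ℝ) - Real.sqrt N * (Real.log N) ^ 6 ≤ h.natDegree} : ℝ) ≤ C * N / (Real.log N) ^ 2 :=
  s_LRG (Pool.Agent.L7h10.BP.s_LOC (Pool.Agent.L7h10.BP.s_CRI Pool.Agent.L7h10.BP.s_GAU
      Pool.Agent.L7h10.BP.s_RED) Pool.Agent.L7h10.BP.s_LUC) Pool.Agent.L7h29.BP.s_FAC
    (Pool.Agent.L7h25.BP.s_LSV (Pool.Agent.L7h25.BP.s_VAR Pool.Agent.L7h79.BP.s_DLS)
      Pool.Agent.L7h79.BP.s_PRC)

end Pool.Agent.L7h58.Old.LargeFactorAlmostAll
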