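import Pool.Agent.L7h58.BP.Dens
import Pool.Agent.L7h10.BP.GAU
import Pool.Agent.L7h10.BP.RED
import Pool.Agent.L7h10.BP.RED2
import Pool.Agent.L7h10.BP.CRI
import Pool.Agent.L7h10.BP.LUC
import Pool.Agent.L7h10.BP.CEN
import Pool.Agent.L7h10.BP.SIZ
import Pool.Agent.L7h10.BP.POL
import Pool.Agent.L7h10.BP.DDF
import Pool.Agent.L7h29.BP.Fac
import Pool.Agent.L7h29.BP.Two
import Pool.Agent.L7h29.BP.Thr
import Pool.Agent.L7h29.BP.Nrt
import Pool.Agent.L7h29.BP.Ob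
import Pool.Agent.L7h30.BP.Bt
import Pool.Agent.L7h30.BP.Dvq
import Pool.Agent.L7h30.BP.Dvm
import Pool.Agent.L7h30.BP.Dv
import Pool.Agent.L7h30.BP.Ord
import Pool.Agent.L7h30.BP.Tda
import Pool.Agent.L7h30.BP.Tad
import Pool.Agent.L7h60.BP.Hta
import Pool.Agent.L7h16.BP.Htt
import Pool.Agent.L7h61.BP.Dva
import Pool.Agent.L7h63.BP.Bad
import Pool.Agent.L7h79.BP.Dls
import Pool.Agent.L7h79.BP.Prc
import Pool.Agent.L7h25.BP.Var
import Pool.Agent.L7h25.BP.Lsv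

set_option autoImplicit false

/-!
# Bernoulli polynomials of degree 2q are irreducible for almost all primes q
-/

namespace Pool.Agent.L7h58.Old.TwicePrimeAlmostAll

open Polynomial Filter Pool.Agent.L7h58.BP

theorem hL : S_LOC := Pool.Agent.L7h10.BP.s_LOC (Pool.Agent.L7h10.BP.s_CRI Pool.Agent.L7h10.BP.s_GAU
  Pool.Agent.L7h10.BP.s_RED) Pool.Agent.L7h10.BP.s_LUC

theorem hT : S_TWO := Pool.Agent.L7h29.BP.s_TWO (Pool.Agent.L7h10.BP.s_CRI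
  Pool.Agent.L7h10.BP.s_GAU Pool.Agent.L7h10.BP.s_RED)

theorem hH : S_THR := Pool.Agent.L7h29.BP.s_THR (Pool.Agent.L7h10.BP.s_CRI
  Pool.Agent.L7h10.BP.s_GAU Pool.Agent.L7h10.BP.s_RED)

theorem hV : S_LSV := Pool.Agent.L7h25.BP.s_LSV (Pool.Agent.L7h25.BP.s_VAR
  Pool.Agent.L7h79.BP.s_DLS) Pool.Agent.L7h79.BP.s_PRC

theorem hO : S_ORD := Pool.Agent.L7h30.BP.s_ORD Pool.Agent.L7h29.BP.s_OB
  (Pool.Agent.L7h30.BP.s_DV Pool.Agent.L7h30.BP.s_BT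
    (Pool.Agent.L7h61.BP.s_DVA (Pool.Agent.L7h16.BP.s_HTT Pool.Agent.L7h60.BP.s_HTA))
    (Pool.Agent.L7h30.BP.s_DVQ Pool.Agent.L7h30.BP.s_BT)
    (Pool.Agent.L7h30.BP.s_DVM Pool.Agent.L7h30.BP.s_BT))

theorem hP : S_POL := Pool.Agent.L7h10.BP.s_POL Pool.Agent.L7h10.BP.s_RED2
  Pool.Agent.L7h29.BP.s_NRT

theorem hB : S_BAD := Pool.Agent.L7h63.BP.s_BAD Pool.Agent.L7h10.BP.s_SIZ
  (Pool.Agent.L7h10.BP.s_DDF (Pool.Agent.L7h30.BP.s_TAD Pool.Agent.L7h30.BP.s_TDA))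

/-- (1) The primes `q` for which the Bernoulli polynomial `B_{2q}(x)` is irreducible over `ℚ` have
relative density 1 in the set of all primes.
(2) For every fixed `e ≥ 1` the primes `q` for which `B_{2^e q}(x)` has a factor, irreducible over `ℚ`, of
degree at least `2^e (q - 1)` have relative density 1 in the set of all primes. -/
theorem result :
    Tendsto (fun x : ℕ =>
      (Nat.card {q : ℕ // q.Prime ∧ q ≤ x ∧ Irreducible (Polynomial.bernoulli (2 * q))} : ℝ) /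
        (Nat.card {q : ℕ // q.Prime ∧ q ≤ x} : ℝ)) atTop (nhds 1) ∧
    ∀ e : ℕ, 1 ≤ e → Tendsto (fun x : ℕ =>
      (Nat.card {q : ℕ // q.Prime ∧ q ≤ x ∧ ∃ h : ℚ[X], Irreducible h ∧
        h ∣ Polynomial.bernoulli (2 ^ e * q) ∧ 2 ^ e * (q - 1) ≤ h.natDegree} : ℝ) /
        (Nat.card {q : ℕ // q.Prime ∧ q ≤ x} : ℝ)) atTop (nhds 1) := by
  have hc : ∀ x : ℕ, (Nat.card {q : ℕ // q.Prime ∧ q ≤ x} : ℝ) = (cnt x (fun _ => True) : ℝ) := by
    intro x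
    unfold cnt
    simp
  refine ⟨?_, ?_⟩
  · have h := dens_one (P := fun q => Irreducible (Polynomial.bernoulli (2 * q)))
      (s_FINB hL hT hH hV hO hP Pool.Agent.L7h10.BP.s_CEN hB)
    simp only [hc]
    exact h
  · intro e he
    have h := dens_one (P := fun q => ∃ h : ℚ[X], Irreducible h ∧
      h ∣ Polynomial.bernoulli (2 ^ e * q) ∧ 2 ^ e * (q - 1) ≤ h.natDegree)
      ((s_FIN hL hT hH Pool.Agent.L7h29.BP.s_FAC hV hO).1 e he)
    simp only [hc]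
    exact h

end Pool.Agent.L7h58.Old.TwicePrimeAlmostAll
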